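import Pool.Agent.H30.BV.Targets
import Pool.Agent.H22.MR.Cheb

/-! Board `bv_modules`, letter ML: Mertens' second theorem, lower bound. -/

set_option autoImplicit false

open Finset Real
open scoped ArithmeticFunction.vonMangoldt

namespace Pool.Agent.H20.BV

open Pool.Agent.H30.BV

theorem nonprime_bound' : ∃ C : ℝ, 0 ≤ C ∧ ∀ s : Finset ℕ,
    ∑ n ∈ s.filter (fun n => ¬ n.Prime), Λ n / n ≤ C := by
  have hs := ArithmeticFunction.vonMangoldt.summable_residueClass_non_primes_div (0 : ZMod 1)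
  have h0 : ∀ n : ℕ, 0 ≤ (if n.Prime then 0 else
      ArithmeticFunction.vonMangoldt.residueClass (0 : ZMod 1) n) / (n : ℝ) := by
    intro n
    split_ifs
    · simp
    · exact div_nonneg (ArithmeticFunction.vonMangoldt.residueClass_nonneg _ n) (Nat.cast_nonneg n)
  refine ⟨∑' n : ℕ, (if n.Prime then 0 else
      ArithmeticFunction.vonMangoldt.residueClass (0 : ZMod 1) n) / (n : ℝ),
    tsum_nonneg h0, fun s => ?_⟩
  have h1 : ∑ n ∈ s.filter (fun n => ¬ n.Prime), Λ n / n =
      ∑ n ∈ s.filter (fun n => ¬ n.Prime), (if n.Prime then 0 else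
      ArithmeticFunction.vonMangoldt.residueClass (0 : ZMod 1) n) / (n : ℝ) := by
    apply Finset.sum_congr rfl
    intro n hn
    rw [Finset.mem_filter] at hn
    rw [if_neg hn.2]
    congr 1
    unfold ArithmeticFunction.vonMangoldt.residueClass
    rw [Set.indicator_of_mem]
    exact Subsingleton.elim _ _
  rw [h1]
  exact hs.sum_le_tsum _ (fun n _ => h0 n)

theorem A_ge : ∃ K : ℝ, 0 ≤ K ∧ ∀ v : ℕ, 1 ≤ v →
    Real.log v - K ≤ ∑ q ∈ (Icc 1 v).filter Nat.Prime, Real.log q / q := by
  obtain ⟨C, hC, hnp⟩ := nonprime_bound'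
  refine ⟨C + 1, by linarith, fun v hv => ?_⟩
  have h1 := Pool.Agent.H22.MR.mertens_ge hv
  have h2 := Finset.sum_filter_add_sum_filter_not (Icc 1 v) Nat.Prime
    (fun d => Λ d / (d : ℝ))
  have h3 := hnp (Icc 1 v)
  have h4 : ∑ p ∈ (Icc 1 v).filter Nat.Prime, Real.log p / p =
      ∑ p ∈ (Icc 1 v).filter Nat.Prime, Λ p / (p : ℝ) := by
    apply Finset.sum_congr rfl
    intro p hp
    rw [ArithmeticFunction.vonMangoldt_apply_prime (Finset.mem_filter.1 hp).2]
  rw [h4]
  linarith

theorem S_succ' (f : ℕ → ℝ) (v : ℕ) :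
    ∑ q ∈ (Icc 1 (v + 1)).filter Nat.Prime, f q =
      ∑ q ∈ (Icc 1 v).filter Nat.Prime, f q + (if (v + 1).Prime then f (v + 1) else 0) := by
  rw [Finset.sum_filter, Finset.sum_filter, Finset.sum_Icc_succ_top (by omega)]

theorem ml : T_ML := by
  obtain ⟨K, hK, hA⟩ := A_ge
  -- the monotone quantity
  let Ps : ℕ → ℝ := fun v => ∑ q ∈ (Icc 1 v).filter Nat.Prime, (1 : ℝ) / q
      - (∑ q ∈ (Icc 1 v).filter Nat.Prime, Real.log q / q) / Real.log v
      - Real.log (Real.log v) - (K + 1) / Real.log v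
  have step : ∀ v : ℕ, 2 ≤ v → Ps v ≤ Ps (v + 1) := by
    intro v hv2
    have hAv := hA v (by omega)
    simp only [Ps]
    rw [S_succ' _ v, S_succ' _ v]
    set S := ∑ q ∈ (Icc 1 v).filter Nat.Prime, (1 : ℝ) / q with hS
    set A := ∑ q ∈ (Icc 1 v).filter Nat.Prime, Real.log q / q with hAdef
    have hv1 : (1 : ℝ) < v := by exact_mod_cast (by omega : 1 < v)
    have hlv : 0 < Real.log v := Real.log_pos hv1
    have hlv' : 0 < Real.log ((v + 1 : ℕ) : ℝ) :=
      Real.log_pos (by exact_mod_cast (by omega : 1 < v + 1))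
    have hle : Real.log v ≤ Real.log ((v + 1 : ℕ) : ℝ) :=
      Real.log_le_log (by linarith) (by push_cast; linarith)
    have hdiff : Real.log ((v + 1 : ℕ) : ℝ) - Real.log v ≤ 1 := by
      rw [← Real.log_div (by positivity) (by positivity)]
      have h1 := Real.log_le_sub_one_of_pos
        (show (0 : ℝ) < ((v + 1 : ℕ) : ℝ) / v by positivity)
      have h2 : ((v + 1 : ℕ) : ℝ) / v ≤ 2 := by
        rw [div_le_iff₀ (by linarith)]
        push_cast
        linarith
      linarith
    set a := Real.log v with ha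
    set b := Real.log ((v + 1 : ℕ) : ℝ) with hb
    have hd : 0 ≤ 1 / a - 1 / b := by
      have := one_div_le_one_div_of_le hlv hle
      linarith
    have e1 : (if (v + 1).Prime then (1 : ℝ) / ((v + 1 : ℕ) : ℝ) else 0) =
        (if (v + 1).Prime then b / ((v + 1 : ℕ) : ℝ) else 0) / b := by
      split_ifs
      · field_simp
      · simp
    rw [e1]
    have hlog : Real.log b - Real.log a ≤ (1 - a / b) + (1 / a - 1 / b) := by
      have h3 := Real.log_le_sub_one_of_pos (div_pos hlv' hlv)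
      rw [Real.log_div hlv'.ne' hlv.ne'] at h3
      have h4 : b / a - 1 = (1 - a / b) + (b - a) * (1 / a - 1 / b) := by
        field_simp
        ring
      have h5 : (b - a) * (1 / a - 1 / b) ≤ 1 * (1 / a - 1 / b) :=
        mul_le_mul_of_nonneg_right hdiff hd
      linarith
    have h4 : (a - K) * (1 / a - 1 / b) ≤ A * (1 / a - 1 / b) :=
      mul_le_mul_of_nonneg_right (by linarith) hd
    have h5 : (a - K) * (1 / a - 1 / b) = 1 - a / b - K * (1 / a - 1 / b) := by
      field_simp
    have h6 : A * (1 / a - 1 / b) = A / a - A / b := by ring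
    have h7 : ∀ δ : ℝ, (A + δ) / b = A / b + δ / b := fun δ => add_div _ _ _
    have h8 : (K + 1) / a - (K + 1) / b = K * (1 / a - 1 / b) + (1 / a - 1 / b) := by ring
    rw [h7]
    linarith
  have mono : ∀ v : ℕ, 2 ≤ v → Ps 2 ≤ Ps v := by
    intro v hv
    induction v, hv using Nat.le_induction with
    | base => exact le_rfl
    | succ v hv ih => exact ih.trans (step v hv)
  refine ⟨-Ps 2, fun y hy => ?_⟩
  have h1 := mono y (by omega)
  have h2 : Ps y = ∑ q ∈ (Icc 1 y).filter Nat.Prime, (1 : ℝ) / q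
      - (∑ q ∈ (Icc 1 y).filter Nat.Prime, Real.log q / q) / Real.log y
      - Real.log (Real.log y) - (K + 1) / Real.log y := rfl
  have hly : 0 < Real.log y := Real.log_pos (by exact_mod_cast (by omega : 1 < y))
  have h3 : 0 ≤ (∑ q ∈ (Icc 1 y).filter Nat.Prime, Real.log q / q) / Real.log y := by
    refine div_nonneg (Finset.sum_nonneg fun q hq => ?_) hly.le
    have hq1 : 1 ≤ q := (Finset.mem_Icc.1 (Finset.mem_filter.1 hq).1).1
    exact div_nonneg (Real.log_nonneg (by exact_mod_cast hq1)) (Nat.cast_nonneg q)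
  have h4 : 0 ≤ (K + 1) / Real.log y := by positivity
  linarith

end Pool.Agent.H20.BV
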