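import Pool.Agent.H20.BV.ZB

/-! Board `bv_modules`, letter PB: Dirichlet series with bounded partial sums. -/

set_option autoImplicit false

open Finset Real Filter
open scoped Topology Nat

namespace Pool.Agent.H20.BV

open Pool.Agent.H30.BV

/-- the coefficient function -/
noncomputable def gk (k : ℕ) (s : ℂ) (x : ℝ) : ℂ := ((Real.log x ^ k : ℝ) : ℂ) * (x : ℂ) ^ (-s)

theorem norm_gk_le (k : ℕ) {s : ℂ} (hs : 1 ≤ s.re) {x : ℝ} (hx : 1 ≤ x) :
    ‖gk k s x‖ ≤ Real.log x ^ k / x := by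
  unfold gk
  have h0 : 0 ≤ Real.log x := Real.log_nonneg hx
  rw [norm_mul, Complex.norm_real, Real.norm_eq_abs, abs_of_nonneg (pow_nonneg h0 k),
    div_eq_mul_one_div]
  exact mul_le_mul_of_nonneg_left (norm_cpow_le hx hs) (pow_nonneg h0 k)

theorem diff_gk (k : ℕ) {n : ℕ} (hn : 1 ≤ n) {s : ℂ} (hs : 1 ≤ s.re) :
    ‖gk k s ((n + 1 : ℕ) : ℝ) - gk k s n‖ ≤
      (k + ‖s‖) * ((1 + Real.log (n + 1 : ℝ)) ^ k / (n : ℝ) ^ 2) := by
  have hn0 : (1 : ℝ) ≤ n := by exact_mod_cast hn
  have hs0 : -s ≠ 0 := by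
    intro h
    have : s.re = 0 := by
      have h2 : s = 0 := by simpa using h
      simp [h2]
    linarith
  have h1 := norm_image_sub_le_of_norm_deriv_le_segment' (f := fun y : ℝ => gk k s y)
    (f' := fun y : ℝ => (((k * Real.log y ^ (k - 1) * y⁻¹ : ℝ)) : ℂ) * (y : ℂ) ^ (-s) +
      ((Real.log y ^ k : ℝ) : ℂ) * (-s * (y : ℂ) ^ (-s - 1))) (a := (n : ℝ)) (b := n + 1)
    (C := (k + ‖s‖) * ((1 + Real.log (n + 1 : ℝ)) ^ k / (n : ℝ) ^ 2))
    (fun y hy => by
      have hy0 : y ≠ 0 := by linarith [hy.1]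
      have e1 : HasDerivAt (fun y : ℝ => Real.log y ^ k) (k * Real.log y ^ (k - 1) * y⁻¹) y :=
        (Real.hasDerivAt_log hy0).pow k
      have e2 := e1.ofReal_comp.mul (hasDerivAt_ofReal_cpow_const hy0 hs0)
      exact e2.hasDerivWithinAt)
    (fun y hy => by
      have hy1 : 1 ≤ y := hn0.trans hy.1
      have hl0 : 0 ≤ Real.log y := Real.log_nonneg hy1
      have hl1 : Real.log y ≤ Real.log (n + 1 : ℝ) := Real.log_le_log (by linarith) hy.2.le
      have hp : Real.log y ^ k ≤ (1 + Real.log (n + 1 : ℝ)) ^ k :=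
        pow_le_pow_left₀ hl0 (by linarith) k
      have hp' : (k : ℝ) * Real.log y ^ (k - 1) ≤ k * (1 + Real.log (n + 1 : ℝ)) ^ k := by
        refine mul_le_mul_of_nonneg_left ?_ (Nat.cast_nonneg k)
        refine (pow_le_pow_left₀ hl0 (by linarith : Real.log y ≤ 1 + Real.log (n + 1 : ℝ))
          (k - 1)).trans ?_
        exact pow_le_pow_right₀ (by linarith) (Nat.sub_le k 1)
      have hy2 : 1 / y ^ 2 ≤ 1 / (n : ℝ) ^ 2 := by
        have h2 : (n : ℝ) ^ 2 ≤ y ^ 2 := pow_le_pow_left₀ (by linarith) hy.1 2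
        exact one_div_le_one_div_of_le (by positivity) h2
      have hP : 0 ≤ (1 + Real.log (n + 1 : ℝ)) ^ k := by
        have : 0 ≤ Real.log (n + 1 : ℝ) := hl0.trans hl1
        positivity
      have b1 : ‖(((k * Real.log y ^ (k - 1) * y⁻¹ : ℝ)) : ℂ) * (y : ℂ) ^ (-s)‖ ≤
          k * (1 + Real.log (n + 1 : ℝ)) ^ k * (1 / (n : ℝ) ^ 2) := by
        rw [norm_mul, Complex.norm_real, Real.norm_eq_abs, abs_of_nonneg (by positivity)]
        have h3 := norm_cpow_le hy1 hs
        calc (k : ℝ) * Real.log y ^ (k - 1) * y⁻¹ * ‖(y : ℂ) ^ (-s)‖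
            ≤ (k * (1 + Real.log (n + 1 : ℝ)) ^ k) * y⁻¹ * (1 / y) := by
              refine mul_le_mul (mul_le_mul_of_nonneg_right hp' (by positivity)) h3
                (norm_nonneg _) (by positivity)
          _ = (k * (1 + Real.log (n + 1 : ℝ)) ^ k) * (1 / y ^ 2) := by
              field_simp
          _ ≤ _ := mul_le_mul_of_nonneg_left hy2 (by positivity)
      have b2 : ‖((Real.log y ^ k : ℝ) : ℂ) * (-s * (y : ℂ) ^ (-s - 1))‖ ≤
          ‖s‖ * (1 + Real.log (n + 1 : ℝ)) ^ k * (1 / (n : ℝ) ^ 2) := by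
        rw [norm_mul, Complex.norm_real, Real.norm_eq_abs, abs_of_nonneg (by positivity),
          norm_mul, norm_neg]
        have h3 := norm_cpow_le' hy1 hs
        calc Real.log y ^ k * (‖s‖ * ‖(y : ℂ) ^ (-s - 1)‖)
            ≤ (1 + Real.log (n + 1 : ℝ)) ^ k * (‖s‖ * (1 / (n : ℝ) ^ 2)) := by
              refine mul_le_mul hp ?_ (by positivity) hP
              exact mul_le_mul_of_nonneg_left (h3.trans hy2) (norm_nonneg _)
          _ = _ := by ring
      refine (norm_add_le _ _).trans ((add_le_add b1 b2).trans (le_of_eq ?_))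
      ring) (n + 1) ⟨by linarith, le_rfl⟩
  have e : ((n + 1 : ℕ) : ℝ) = (n : ℝ) + 1 := by push_cast; ring
  rw [e]
  refine h1.trans (le_of_eq ?_)
  ring

/-- comparison of powers of logarithms -/
theorem log_pow_le (k : ℕ) {N x : ℝ} (hN : 1 ≤ N) (hx : N ≤ x) :
    (1 + Real.log x) ^ k ≤ (2 ^ k * k ! * 2) * (1 + Real.log N) ^ k * (√x / √N) := by
  have hl : 0 ≤ Real.log N := Real.log_nonneg hN
  set u := Real.log (x / N) with hu
  have hu0 : 0 ≤ u := Real.log_nonneg ((one_le_div (by linarith)).2 hx)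
  have hlx : Real.log x = Real.log N + u := by
    rw [hu, Real.log_div (by linarith) (by linarith)]
    ring
  have h1 : 1 + Real.log x ≤ (1 + Real.log N) * (1 + u) := by
    rw [hlx]
    nlinarith
  have h2 : (1 + Real.log x) ^ k ≤ (1 + Real.log N) ^ k * (1 + u) ^ k := by
    rw [← mul_pow]
    exact pow_le_pow_left₀ (by rw [hlx]; linarith) h1 k
  have h3 := Real.pow_div_factorial_le_exp ((1 + u) / 2) (by linarith) k
  have hk : (0 : ℝ) < k ! := by exact_mod_cast Nat.factorial_pos k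
  have h4 : (1 + u) ^ k ≤ 2 ^ k * k ! * Real.exp ((1 + u) / 2) := by
    rw [div_pow, div_div, div_le_iff₀ (by positivity)] at h3
    linarith
  have h5 : Real.exp ((1 + u) / 2) ≤ 2 * (√x / √N) := by
    have e1 : (1 + u) / 2 = 1 / 2 + u / 2 := by ring
    rw [e1, Real.exp_add]
    have e2 : Real.exp (u / 2) = √x / √N := by
      rw [← Real.sqrt_div (by linarith), hu, Real.sqrt_eq_rpow, Real.rpow_def_of_pos
        (div_pos (by linarith) (by linarith))]
      congr 1
      ring
    rw [e2]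
    refine mul_le_mul_of_nonneg_right ?_ (by positivity)
    have h6 : Real.exp (1 / 2) * Real.exp (1 / 2) = Real.exp 1 := by
      rw [← Real.exp_add]; norm_num
    have h7 := Real.exp_one_lt_d9
    nlinarith [Real.exp_pos (1 / 2 : ℝ)]
  have hP : 0 ≤ (1 + Real.log N) ^ k := by positivity
  calc (1 + Real.log x) ^ k ≤ (1 + Real.log N) ^ k * (1 + u) ^ k := h2
    _ ≤ (1 + Real.log N) ^ k * (2 ^ k * k ! * (2 * (√x / √N))) := by
        refine mul_le_mul_of_nonneg_left (h4.trans ?_) hP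
        exact mul_le_mul_of_nonneg_left h5 (by positivity)
    _ = _ := by ring

/-- tail sums of `n^(-3/2)` -/
theorem sum_three_halves (N M : ℕ) (hN : 1 ≤ N) (hM : N ≤ M) :
    ∑ n ∈ Ioc N M, 1 / ((n : ℝ) * √n) ≤ 2 * (1 / √N - 1 / √M) := by
  induction M, hM using Nat.le_induction with
  | base => simp
  | succ M hM ih =>
    rw [Finset.sum_Ioc_succ_top (by omega)]
    have h1 : (0 : ℝ) < M := by exact_mod_cast (by omega : 0 < M)
    set a := √(M : ℝ) with ha
    set b := √((M + 1 : ℕ) : ℝ) with hb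
    have ha0 : 0 < a := Real.sqrt_pos.2 h1
    have hb0 : 0 < b := Real.sqrt_pos.2 (by positivity)
    have ha2 : a ^ 2 = M := Real.sq_sqrt h1.le
    have hb2 : b ^ 2 = ((M + 1 : ℕ) : ℝ) := Real.sq_sqrt (by positivity)
    have hab : b ^ 2 = a ^ 2 + 1 := by
      rw [ha2, hb2]; push_cast; ring
    have hle : a ≤ b := Real.sqrt_le_sqrt (by push_cast; linarith)
    rw [← hb2]
    have h2 : 1 / (b ^ 2 * b) ≤ 2 * (1 / a - 1 / b) := by
      have e1 : 1 / a - 1 / b = 1 / ((a + b) * (a * b)) := by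
        have h3 : (b - a) * (a + b) = 1 := by nlinarith
        rw [div_sub_div _ _ ha0.ne' hb0.ne', div_eq_div_iff (by positivity) (by positivity)]
        calc (1 * b - a * 1) * ((a + b) * (a * b)) = ((b - a) * (a + b)) * (a * b) := by ring
          _ = 1 * (a * b) := by rw [h3]
      rw [e1, mul_one_div, div_le_div_iff₀ (by positivity) (by positivity)]
      nlinarith [mul_pos ha0 hb0, mul_pos hb0 hb0, mul_nonneg (sub_nonneg.2 hle) hb0.le,
        mul_nonneg (sub_nonneg.2 hle) (mul_pos ha0 hb0).le,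
        mul_nonneg (mul_nonneg (sub_nonneg.2 hle) hb0.le) hb0.le]
    linarith

/-- partial summation -/
theorem abel_norm (F G : ℕ → ℂ) (B : ℝ) (hF : ∀ n, ‖F n‖ ≤ B) (a M : ℕ) (hM : a ≤ M) :
    ‖∑ n ∈ Ico a M, (F (n + 1) - F n) * G n‖ ≤
      B * (‖G M‖ + ‖G a‖ + ∑ n ∈ Ico a M, ‖G (n + 1) - G n‖) := by
  have e : ∑ n ∈ Ico a M, (F (n + 1) - F n) * G n =
      F M * G M - F a * G a - ∑ n ∈ Ico a M, F (n + 1) * (G (n + 1) - G n) := by
    induction M, hM using Nat.le_induction with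
    | base => simp
    | succ M hM ih =>
      rw [Finset.sum_Ico_succ_top hM, Finset.sum_Ico_succ_top hM, ih]
      ring
  have hB : 0 ≤ B := (norm_nonneg _).trans (hF 0)
  rw [e]
  refine (norm_sub_le _ _).trans ?_
  have h1 : ‖F M * G M - F a * G a‖ ≤ B * ‖G M‖ + B * ‖G a‖ := by
    refine (norm_sub_le _ _).trans ?_
    rw [norm_mul, norm_mul]
    exact add_le_add (mul_le_mul_of_nonneg_right (hF M) (norm_nonneg _))
      (mul_le_mul_of_nonneg_right (hF a) (norm_nonneg _))
  have h2 : ‖∑ n ∈ Ico a M, F (n + 1) * (G (n + 1) - G n)‖ ≤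
      B * ∑ n ∈ Ico a M, ‖G (n + 1) - G n‖ := by
    refine (norm_sum_le _ _).trans ?_
    rw [Finset.mul_sum]
    refine Finset.sum_le_sum fun n _ => ?_
    rw [norm_mul]
    exact mul_le_mul_of_nonneg_right (hF _) (norm_nonneg _)
  linarith

theorem aux_div (N n a b C : ℝ) (ha : 0 < a) (hb : 0 < b) (hN : a * a = N) (hn : b * b = n) :
    N * ((C * (b / a)) / n) = C * (a / b) := by
  subst hN hn
  field_simp

theorem pb : T_PB := by
  intro k
  set Ck : ℝ := 2 ^ k * k ! * 2 with hCk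
  have hk : (0 : ℝ) < k ! := by exact_mod_cast Nat.factorial_pos k
  have hCk0 : 0 < Ck := by positivity
  refine ⟨3 * 2 ^ k + (2 * Ck + 8 * Ck * (k + 1)) * 3 ^ k, by positivity,
    fun f B s hB hf hF hs hs3 => ?_⟩
  set t := |s.im| with ht
  have ht0 : 0 ≤ t := abs_nonneg _
  set l := Real.log (B * (t + 3)) with hl
  have hBt : 3 ≤ B * (t + 3) := by nlinarith
  have hl1 : 1 < l := by
    have h1 : 1 < Real.log 3 := by
      rw [Real.lt_log_iff_exp_lt (by norm_num)]
      exact Real.exp_one_lt_d9.trans (by norm_num)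
    exact h1.trans_le (Real.log_le_log (by norm_num) hBt)
  have hsn : ‖s‖ ≤ t + 3 := by
    have h1 := Complex.norm_le_abs_re_add_abs_im s
    have h2 : |s.re| = s.re := abs_of_pos (by linarith)
    linarith
  obtain ⟨N, hN⟩ : ∃ N : ℕ, N = ⌈B * (t + 3)⌉₊ := ⟨_, rfl⟩
  have hN1 : B * (t + 3) ≤ N := by rw [hN]; exact Nat.le_ceil _
  have hN2 : (N : ℝ) < B * (t + 3) + 1 := by rw [hN]; exact Nat.ceil_lt_add_one (by linarith)
  have hN3 : (3 : ℝ) ≤ N := by linarith
  have hN0 : 1 ≤ N := by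
    have : (1 : ℝ) ≤ N := by linarith
    exact_mod_cast this
  have hBN : B ≤ N := by nlinarith
  have hlogN : Real.log N ≤ 2 * l := by
    have h1 : (N : ℝ) ≤ (B * (t + 3)) ^ 2 := by nlinarith
    have h2 := Real.log_le_log (by linarith) h1
    rw [Real.log_pow] at h2
    exact_mod_cast h2
  have hlogN0 : 0 ≤ Real.log N := Real.log_nonneg (by linarith)
  have hPN : (1 + Real.log N) ^ k ≤ 3 ^ k * l ^ k := by
    rw [← mul_pow]
    exact pow_le_pow_left₀ (by linarith) (by linarith) k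
  have hPN0 : 0 ≤ (1 + Real.log N) ^ k := by positivity
  have hlk : l ^ k ≤ l ^ (k + 1) := pow_le_pow_right₀ hl1.le (Nat.le_succ k)
  have hlk0 : 0 < l ^ k := by positivity
  have hsN : 0 < √(N : ℝ) := Real.sqrt_pos.2 (by linarith)
  have hsN2 : √(N : ℝ) * √(N : ℝ) = N := Real.mul_self_sqrt (by linarith)
  -- the terms
  have hterm : ∀ n : ℕ, 1 ≤ n → LSeries.term (fun n => f n * ((Real.log n ^ k : ℝ) : ℂ)) s n =
      f n * gk k s n := by
    intro n hn
    rw [LSeries.term_of_ne_zero (by omega), gk, Complex.cpow_neg, Complex.ofReal_natCast]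
    ring
  have hG : ∀ n : ℕ, N ≤ n → B * ‖gk k s n‖ ≤ Ck * (3 ^ k * l ^ k) := by
    intro n hn
    have hnN : (N : ℝ) ≤ n := by exact_mod_cast hn
    have hn1 : (1 : ℝ) ≤ n := by linarith
    have h1 := norm_gk_le k hs.le hn1
    have h2 : Real.log n ^ k ≤ (1 + Real.log n) ^ k :=
      pow_le_pow_left₀ (Real.log_nonneg hn1) (by linarith) k
    have h3 := log_pow_le k (by linarith : (1 : ℝ) ≤ N) hnN
    have hsn0 : 0 < √(n : ℝ) := Real.sqrt_pos.2 (by linarith)
    have hsn2 : √(n : ℝ) * √(n : ℝ) = n := Real.mul_self_sqrt (by linarith)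
    have hle : √(N : ℝ) ≤ √(n : ℝ) := Real.sqrt_le_sqrt hnN
    calc B * ‖gk k s n‖ ≤ N * ((Ck * (1 + Real.log N) ^ k * (√n / √N)) / n) := by
          refine mul_le_mul hBN ?_ (norm_nonneg _) (by linarith)
          refine h1.trans ?_
          exact div_le_div_of_nonneg_right (h2.trans h3) (by linarith)
      _ = Ck * (1 + Real.log N) ^ k * (√N / √n) :=
          aux_div N n _ _ _ hsN hsn0 hsN2 hsn2
      _ ≤ Ck * (1 + Real.log N) ^ k * 1 := by
          refine mul_le_mul_of_nonneg_left ?_ (by positivity)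
          exact (div_le_one hsn0).2 hle
      _ ≤ _ := by
          rw [mul_one]
          exact mul_le_mul_of_nonneg_left hPN hCk0.le
  have hdif : ∀ n : ℕ, N < n → ‖gk k s ((n + 1 : ℕ) : ℝ) - gk k s n‖ ≤
      (k + ‖s‖) * (2 * Ck * (1 + Real.log N) ^ k / √N) * (1 / ((n : ℝ) * √n)) := by
    intro n hn
    have hnN : (N : ℝ) ≤ n := by exact_mod_cast hn.le
    have hn1 : (1 : ℝ) ≤ n := by linarith
    have h1 := diff_gk k (by omega : 1 ≤ n) hs.le
    have h3 := log_pow_le k (by linarith : (1 : ℝ) ≤ N) (by linarith : (N : ℝ) ≤ n + 1)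
    have hsn0 : 0 < √(n : ℝ) := Real.sqrt_pos.2 (by linarith)
    have hsn2 : √(n : ℝ) * √(n : ℝ) = n := Real.mul_self_sqrt (by linarith)
    have h4 : √((n : ℝ) + 1) ≤ 2 * √(n : ℝ) := by
      rw [Real.sqrt_le_left (by positivity), mul_pow, Real.sq_sqrt (by linarith)]
      linarith
    refine h1.trans ?_
    rw [mul_assoc]
    refine mul_le_mul_of_nonneg_left ?_ (by positivity)
    calc (1 + Real.log (n + 1 : ℝ)) ^ k / (n : ℝ) ^ 2
        ≤ (Ck * (1 + Real.log N) ^ k * ((2 * √(n : ℝ)) / √N)) / (n : ℝ) ^ 2 := by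
          refine div_le_div_of_nonneg_right (h3.trans ?_) (by positivity)
          refine mul_le_mul_of_nonneg_left ?_ (by positivity)
          exact div_le_div_of_nonneg_right h4 hsN.le
      _ = 2 * Ck * (1 + Real.log N) ^ k / √N * (1 / ((n : ℝ) * √n)) := by
          have e : (n : ℝ) ^ 2 = n * (√(n : ℝ) * √(n : ℝ)) := by rw [hsn2]; ring
          rw [e]
          field_simp
  -- bounds for the partial sums
  have hpart : ∀ M : ℕ, N + 1 ≤ M → ‖∑ n ∈ range M,
      LSeries.term (fun n => f n * ((Real.log n ^ k : ℝ) : ℂ)) s n‖ ≤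
      (3 * 2 ^ k + (2 * Ck + 8 * Ck * (k + 1)) * 3 ^ k) * l ^ (k + 1) := by
    intro M hM
    rw [← Finset.sum_range_add_sum_Ico _ hM]
    refine (norm_add_le _ _).trans ?_
    -- head
    have h1 : ‖∑ n ∈ range (N + 1),
        LSeries.term (fun n => f n * ((Real.log n ^ k : ℝ) : ℂ)) s n‖ ≤
        3 * 2 ^ k * l ^ (k + 1) := by
      have e : ∑ n ∈ range (N + 1),
          LSeries.term (fun n => f n * ((Real.log n ^ k : ℝ) : ℂ)) s n =
          ∑ n ∈ Icc 1 N, LSeries.term (fun n => f n * ((Real.log n ^ k : ℝ) : ℂ)) s n := by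
        have e0 : range (N + 1) = insert 0 (Icc 1 N) := by
          ext d
          simp only [Finset.mem_range, Finset.mem_insert, Finset.mem_Icc]
          omega
        rw [e0, Finset.sum_insert (by simp)]
        simp [LSeries.term_def]
      rw [e]
      refine (norm_sum_le _ _).trans ?_
      have h2 : ∀ n ∈ Icc 1 N, ‖LSeries.term (fun n => f n * ((Real.log n ^ k : ℝ) : ℂ)) s n‖ ≤
          (2 * l) ^ k * (1 / (n : ℝ)) := by
        intro n hn
        rw [Finset.mem_Icc] at hn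
        rw [hterm n hn.1, norm_mul]
        have hn1 : (1 : ℝ) ≤ n := by exact_mod_cast hn.1
        have hnN : (n : ℝ) ≤ N := by exact_mod_cast hn.2
        have h3 := norm_gk_le k hs.le hn1
        have h4 : Real.log n ^ k ≤ (2 * l) ^ k :=
          pow_le_pow_left₀ (Real.log_nonneg hn1)
            ((Real.log_le_log (by linarith) hnN).trans hlogN) k
        calc ‖f n‖ * ‖gk k s n‖ ≤ 1 * (Real.log n ^ k / n) :=
              mul_le_mul (hf n) h3 (norm_nonneg _) (by norm_num)
          _ = Real.log n ^ k * (1 / n) := by ring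
          _ ≤ _ := mul_le_mul_of_nonneg_right h4 (by positivity)
      refine (Finset.sum_le_sum h2).trans ?_
      rw [← Finset.mul_sum]
      have h5 := harm_le N hN0
      calc (2 * l) ^ k * ∑ n ∈ Icc 1 N, 1 / (n : ℝ) ≤ (2 * l) ^ k * (3 * l) := by
            refine mul_le_mul_of_nonneg_left (h5.trans ?_) (by positivity)
            linarith
        _ = _ := by rw [mul_pow, pow_succ]; ring
    -- tail
    have h2 : ‖∑ n ∈ Ico (N + 1) M,
        LSeries.term (fun n => f n * ((Real.log n ^ k : ℝ) : ℂ)) s n‖ ≤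
        ((2 * Ck + 8 * Ck * (k + 1)) * 3 ^ k) * l ^ (k + 1) := by
      have e : ∑ n ∈ Ico (N + 1) M,
          LSeries.term (fun n => f n * ((Real.log n ^ k : ℝ) : ℂ)) s n =
          ∑ n ∈ Ico (N + 1) M, ((fun M => ∑ n ∈ range M, f n) (n + 1) -
            (fun M => ∑ n ∈ range M, f n) n) * (fun n : ℕ => gk k s n) n := by
        refine Finset.sum_congr rfl fun n hn => ?_
        rw [hterm n (by have := (Finset.mem_Ico.1 hn).1; omega)]
        simp only
        rw [Finset.sum_range_succ]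
        ring
      rw [e]
      refine (abel_norm (fun M => ∑ n ∈ range M, f n) (fun n : ℕ => gk k s n) B hF (N + 1) M
        hM).trans ?_
      have h3 := hG M (by omega)
      have h4 := hG (N + 1) (by omega)
      have h5 : ∑ n ∈ Ico (N + 1) M, ‖gk k s ((n + 1 : ℕ) : ℝ) - gk k s n‖ ≤
          (k + ‖s‖) * (2 * Ck * (1 + Real.log N) ^ k / √N) * (2 * (1 / √N)) := by
        refine (Finset.sum_le_sum fun n hn => hdif n (by
          have := (Finset.mem_Ico.1 hn).1
          omega)).trans ?_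
        rw [← Finset.mul_sum]
        refine mul_le_mul_of_nonneg_left ?_ (by positivity)
        have e2 : Ico (N + 1) M = Ioc N (M - 1) := by
          ext d
          simp only [Finset.mem_Ico, Finset.mem_Ioc]
          omega
        rw [e2]
        refine (sum_three_halves N (M - 1) hN0 (by omega)).trans ?_
        have h6 : 0 ≤ 1 / √((M - 1 : ℕ) : ℝ) := by positivity
        linarith
      have h6 : B * ∑ n ∈ Ico (N + 1) M, ‖gk k s ((n + 1 : ℕ) : ℝ) - gk k s n‖ ≤
          8 * Ck * (k + 1) * (3 ^ k * l ^ k) := by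
        have h7 : B * (k + ‖s‖) ≤ 2 * (k + 1) * N := by
          have h8 : B * ‖s‖ ≤ N := (mul_le_mul_of_nonneg_left hsn (by linarith)).trans hN1
          have h9 : B * (k : ℝ) ≤ N * k := mul_le_mul_of_nonneg_right hBN (Nat.cast_nonneg k)
          have h10 : (0 : ℝ) ≤ k * N := by positivity
          nlinarith
        calc B * ∑ n ∈ Ico (N + 1) M, ‖gk k s ((n + 1 : ℕ) : ℝ) - gk k s n‖
            ≤ B * ((k + ‖s‖) * (2 * Ck * (1 + Real.log N) ^ k / √N) * (2 * (1 / √N))) :=
              mul_le_mul_of_nonneg_left h5 (by linarith)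
          _ = (B * (k + ‖s‖)) * (4 * Ck * (1 + Real.log N) ^ k / (√N * √N)) := by
              field_simp
              ring
          _ ≤ (2 * (k + 1) * N) * (4 * Ck * (1 + Real.log N) ^ k / (√N * √N)) :=
              mul_le_mul_of_nonneg_right h7 (by positivity)
          _ = 8 * Ck * (k + 1) * (1 + Real.log N) ^ k := by
              rw [hsN2]
              field_simp
              ring
          _ ≤ _ := mul_le_mul_of_nonneg_left hPN (by positivity)
      have h8 : B * (‖gk k s (M : ℝ)‖ + ‖gk k s ((N + 1 : ℕ) : ℝ)‖ +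
          ∑ n ∈ Ico (N + 1) M, ‖gk k s ((n + 1 : ℕ) : ℝ) - gk k s n‖) ≤
          ((2 * Ck + 8 * Ck * (k + 1)) * 3 ^ k) * l ^ k := by
        rw [mul_add, mul_add]
        have e3 : ((2 * Ck + 8 * Ck * (k + 1)) * 3 ^ k) * l ^ k =
          Ck * (3 ^ k * l ^ k) + Ck * (3 ^ k * l ^ k) + 8 * Ck * (k + 1) * (3 ^ k * l ^ k) := by
          ring
        rw [e3]
        linarith
      exact h8.trans (mul_le_mul_of_nonneg_left hlk (by positivity))
    have e4 : (3 * 2 ^ k + (2 * Ck + 8 * Ck * (k + 1)) * 3 ^ k) * l ^ (k + 1) =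
      3 * 2 ^ k * l ^ (k + 1) + ((2 * Ck + 8 * Ck * (k + 1)) * 3 ^ k) * l ^ (k + 1) := by ring
    rw [e4]
    linarith
  -- summability
  have hsumm : LSeriesSummable (fun n => f n * ((Real.log n ^ k : ℝ) : ℂ)) s := by
    have hx : 0 < (s.re - 1) / 2 := by linarith
    have h1 : (fun n : ℕ => f n * ((Real.log n ^ k : ℝ) : ℂ)) =O[atTop]
        fun n : ℕ => (n : ℝ) ^ ((s.re - 1) / 2) := by
      have h2 : (fun n : ℕ => Real.log (n : ℝ) ^ k) =O[atTop]
          fun n : ℕ => (n : ℝ) ^ ((s.re - 1) / 2) :=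
        ((isLittleO_log_rpow_rpow_atTop (k : ℝ) hx).isBigO.comp_tendsto
          tendsto_natCast_atTop_atTop).congr' (by
            filter_upwards with n
            simp [Real.rpow_natCast]) (by rfl)
      refine Asymptotics.IsBigO.trans ?_ h2
      refine Asymptotics.IsBigO.of_bound 1 ?_
      filter_upwards with n
      rw [norm_mul, Complex.norm_real, one_mul]
      exact mul_le_of_le_one_left (norm_nonneg _) (hf n)
    refine LSeriesSummable_of_isBigO_rpow (x := (s.re - 1) / 2 + 1) (by linarith) ?_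
    simpa using h1
  have hlim := hsumm.hasSum.tendsto_sum_nat
  unfold DS LSeries
  refine le_of_tendsto hlim.norm ?_
  filter_upwards [eventually_ge_atTop (N + 1)] with M hM
  exact hpart M hM

end Pool.Agent.H20.BV
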