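import Pool.Agent.H30.BV.Targets

/-! Board `bv_modules`, letters PB and ZB: Dirichlet series near the line 1. -/

set_option autoImplicit false

open Finset Real Filter
open scoped Topology Nat

namespace Pool.Agent.H20.BV

open Pool.Agent.H30.BV

/-- harmonic sums -/
theorem harm_le (N : ℕ) (_hN : 1 ≤ N) : ∑ n ∈ Icc 1 N, (1 : ℝ) / n ≤ 1 + Real.log N := by
  have h := harmonic_le_one_add_log N
  rw [harmonic_eq_sum_Icc] at h
  push_cast at h
  simpa [one_div] using h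

/-- norm of a power -/
theorem norm_cpow_le {x : ℝ} (hx : 1 ≤ x) {s : ℂ} (hs : 1 ≤ s.re) : ‖(x : ℂ) ^ (-s)‖ ≤ 1 / x := by
  rw [Complex.norm_cpow_eq_rpow_re_of_pos (by linarith)]
  have h1 : x ^ (-s).re ≤ x ^ (-1 : ℝ) :=
    Real.rpow_le_rpow_of_exponent_le hx (by simp; linarith)
  rwa [Real.rpow_neg_one, ← one_div] at h1

theorem norm_cpow_le' {x : ℝ} (hx : 1 ≤ x) {s : ℂ} (hs : 1 ≤ s.re) :
    ‖(x : ℂ) ^ (-s - 1)‖ ≤ 1 / x ^ 2 := by
  rw [Complex.norm_cpow_eq_rpow_re_of_pos (by linarith)]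
  have h1 : x ^ (-s - 1).re ≤ x ^ (-2 : ℝ) :=
    Real.rpow_le_rpow_of_exponent_le hx (by simp; linarith)
  have h2 : x ^ (-2 : ℝ) = 1 / x ^ 2 := by
    rw [Real.rpow_neg (by linarith), one_div]
    norm_cast
  rwa [h2] at h1

/-- differences of the coefficients -/
theorem diff_cpow {n : ℕ} (hn : 1 ≤ n) {s : ℂ} (hs : 1 ≤ s.re) {x : ℝ}
    (hx : x ∈ Set.Icc (n : ℝ) (n + 1)) :
    ‖(x : ℂ) ^ (-s) - (n : ℂ) ^ (-s)‖ ≤ ‖s‖ / (n : ℝ) ^ 2 := by
  have hn0 : (1 : ℝ) ≤ n := by exact_mod_cast hn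
  have hs0 : -s ≠ 0 := by
    intro h
    have : s.re = 0 := by
      have h2 : s = 0 := by simpa using h
      simp [h2]
    linarith
  have h1 := norm_image_sub_le_of_norm_deriv_le_segment' (f := fun y : ℝ => (y : ℂ) ^ (-s))
    (f' := fun y : ℝ => -s * (y : ℂ) ^ (-s - 1)) (a := (n : ℝ)) (b := n + 1)
    (C := ‖s‖ / (n : ℝ) ^ 2)
    (fun y hy => (hasDerivAt_ofReal_cpow_const (by linarith [hy.1]) hs0).hasDerivWithinAt)
    (fun y hy => by
      rw [norm_mul, norm_neg, div_eq_mul_one_div]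
      refine mul_le_mul_of_nonneg_left ?_ (norm_nonneg s)
      refine (norm_cpow_le' (hn0.trans hy.1) hs).trans ?_
      have h2 : (n : ℝ) ^ 2 ≤ y ^ 2 := pow_le_pow_left₀ (by linarith) hy.1 2
      exact one_div_le_one_div_of_le (by positivity) h2) x hx
  refine h1.trans ?_
  have h2 : x - n ≤ 1 := by linarith [hx.2]
  have h3 : 0 ≤ x - n := by linarith [hx.1]
  have h4 : 0 ≤ ‖s‖ / (n : ℝ) ^ 2 := by positivity
  nlinarith

/-- comparison of a term with the integral -/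
theorem term_integral {n : ℕ} (hn : 1 ≤ n) {s : ℂ} (hs : 1 < s.re) (D : ℝ)
    (hD : ∀ x ∈ Set.Icc (n : ℝ) (n + 1), ‖(x : ℂ) ^ (-s) - (n : ℂ) ^ (-s)‖ ≤ D) :
    ‖(n : ℂ) ^ (-s) - ((n : ℂ) ^ (1 - s) - ((n + 1 : ℕ) : ℂ) ^ (1 - s)) / (s - 1)‖ ≤ D := by
  have hn0 : (1 : ℝ) ≤ n := by exact_mod_cast hn
  have hs1 : s - 1 ≠ 0 := by
    intro h
    have : s = 1 := by linear_combination h
    rw [this] at hs
    simp at hs
  have hs2 : 1 - s ≠ 0 := fun h => hs1 (by linear_combination -h)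
  have h1 := norm_image_sub_le_of_norm_deriv_le_segment'
    (f := fun y : ℝ => (n : ℂ) ^ (-s) * (y : ℂ) + (y : ℂ) ^ (1 - s) / (s - 1))
    (f' := fun y : ℝ => (n : ℂ) ^ (-s) - (y : ℂ) ^ (-s)) (a := (n : ℝ)) (b := n + 1)
    (C := D)
    (fun y hy => by
      have e1 : HasDerivAt (fun y : ℝ => (n : ℂ) ^ (-s) * (y : ℂ)) ((n : ℂ) ^ (-s)) y := by
        simpa using (Complex.ofRealCLM.hasDerivAt (x := y)).const_mul ((n : ℂ) ^ (-s))
      have e2 : HasDerivAt (fun y : ℝ => (y : ℂ) ^ (1 - s) / (s - 1)) (-(y : ℂ) ^ (-s)) y := by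
        have e3 := (hasDerivAt_ofReal_cpow_const (x := y) (by linarith [hy.1]) hs2).div_const
          (s - 1)
        have e4 : (1 - s) * (y : ℂ) ^ (1 - s - 1) / (s - 1) = -(y : ℂ) ^ (-s) := by
          have e5 : 1 - s - 1 = -s := by ring
          rw [e5]
          field_simp
          ring
        rwa [e4] at e3
      have e3 := e1.add e2
      rw [← sub_eq_add_neg] at e3
      exact e3.hasDerivWithinAt)
    (fun y hy => by
      rw [norm_sub_rev]
      exact hD y ⟨hy.1, hy.2.le⟩) (n + 1) ⟨by linarith, le_rfl⟩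
  have e : (n : ℂ) ^ (-s) - ((n : ℂ) ^ (1 - s) - ((n + 1 : ℕ) : ℂ) ^ (1 - s)) / (s - 1) =
      (n : ℂ) ^ (-s) * (((n : ℝ) + 1 : ℝ) : ℂ) + (((n : ℝ) + 1 : ℝ) : ℂ) ^ (1 - s) / (s - 1) -
      ((n : ℂ) ^ (-s) * ((n : ℝ) : ℂ) + ((n : ℝ) : ℂ) ^ (1 - s) / (s - 1)) := by
    push_cast
    ring
  rw [e]
  refine h1.trans (le_of_eq ?_)
  ring

/-- tail sums of inverse squares -/
theorem sq_tail (N M : ℕ) (hN : 1 ≤ N) (hM : N ≤ M) :
    ∑ n ∈ Ioc N M, (1 : ℝ) / (n : ℝ) ^ 2 ≤ 1 / N - 1 / M := by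
  induction M, hM using Nat.le_induction with
  | base => simp
  | succ M hM ih =>
    rw [Finset.sum_Ioc_succ_top (by omega)]
    have h1 : (0 : ℝ) < M := by exact_mod_cast (by omega : 0 < M)
    have h2 : (1 : ℝ) / ((M + 1 : ℕ) : ℝ) ^ 2 ≤ 1 / M - 1 / ((M + 1 : ℕ) : ℝ) := by
      push_cast
      rw [div_sub_div _ _ h1.ne' (by positivity), div_le_div_iff₀ (by positivity) (by positivity)]
      nlinarith
    linarith

theorem zb : T_ZB := by
  refine ⟨8, by norm_num, fun s hs hs3 => ?_⟩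
  set t := |s.im| with ht
  have ht0 : 0 ≤ t := abs_nonneg _
  have hl3 : 1 < Real.log 3 := by
    rw [Real.lt_log_iff_exp_lt (by norm_num)]
    exact Real.exp_one_lt_d9.trans (by norm_num)
  have hl : 1 < Real.log (t + 3) :=
    hl3.trans_le (Real.log_le_log (by norm_num) (by linarith))
  have hsn : ‖s‖ ≤ t + 3 := by
    have h1 := Complex.norm_le_abs_re_add_abs_im s
    have h2 : |s.re| = s.re := abs_of_pos (by linarith)
    linarith
  have hs1 : s - 1 ≠ 0 := by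
    intro h
    have : s = 1 := by linear_combination h
    rw [this] at hs
    simp at hs
  obtain ⟨N, hN⟩ : ∃ N : ℕ, N = ⌈t + 3⌉₊ := ⟨_, rfl⟩
  have hN1 : t + 3 ≤ N := by rw [hN]; exact Nat.le_ceil _
  have hN2 : (N : ℝ) < t + 3 + 1 := by rw [hN]; exact Nat.ceil_lt_add_one (by linarith)
  have hN3 : (3 : ℝ) ≤ N := by linarith
  have hN0 : 1 ≤ N := by
    have : (1 : ℝ) ≤ N := by linarith
    exact_mod_cast this
  have hlogN : Real.log N ≤ 2 * Real.log (t + 3) := by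
    have h1 : (N : ℝ) ≤ (t + 3) ^ 2 := by nlinarith
    have h2 := Real.log_le_log (by linarith) h1
    rw [Real.log_pow] at h2
    exact_mod_cast h2
  -- the error terms
  let E : ℕ → ℂ := fun n =>
    (n : ℂ) ^ (-s) - ((n : ℂ) ^ (1 - s) - ((n + 1 : ℕ) : ℂ) ^ (1 - s)) / (s - 1)
  have hE1 : ∀ n : ℕ, 1 ≤ n → ‖E n‖ ≤ 2 * (1 / n) := by
    intro n hn
    have hn0 : (1 : ℝ) ≤ n := by exact_mod_cast hn
    refine term_integral hn hs _ fun x hx => ?_
    have h1 := norm_cpow_le (hn0.trans hx.1) hs.le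
    have h2 := norm_cpow_le hn0 hs.le
    have h3 : 1 / x ≤ 1 / (n : ℝ) := one_div_le_one_div_of_le (by linarith) hx.1
    refine (norm_sub_le _ _).trans ?_
    have h4 : ‖((n : ℝ) : ℂ) ^ (-s)‖ = ‖(n : ℂ) ^ (-s)‖ := by norm_cast
    rw [h4] at h2
    linarith
  have hE2 : ∀ n : ℕ, 1 ≤ n → ‖E n‖ ≤ ‖s‖ * (1 / (n : ℝ) ^ 2) := by
    intro n hn
    rw [mul_one_div]
    exact term_integral hn hs _ fun x hx => diff_cpow hn hs.le hx
  -- partial sums of the errors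
  have hpart : ∀ M : ℕ, N ≤ M → ‖∑ n ∈ Icc 1 M, E n‖ ≤ 8 * Real.log (t + 3) := by
    intro M hM
    have e : Icc 1 M = Icc 1 N ∪ Ioc N M := by
      ext d
      simp only [Finset.mem_union, Finset.mem_Icc, Finset.mem_Ioc]
      omega
    have hdisj : Disjoint (Icc 1 N) (Ioc N M) := by
      rw [Finset.disjoint_left]
      intro d hd hd'
      rw [Finset.mem_Icc] at hd
      rw [Finset.mem_Ioc] at hd'
      omega
    rw [e, Finset.sum_union hdisj]
    refine (norm_add_le _ _).trans ?_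
    have h1 : ‖∑ n ∈ Icc 1 N, E n‖ ≤ 2 * (1 + Real.log N) := by
      refine (norm_sum_le _ _).trans ?_
      refine (Finset.sum_le_sum fun n hn => hE1 n (Finset.mem_Icc.1 hn).1).trans ?_
      rw [← Finset.mul_sum]
      exact mul_le_mul_of_nonneg_left (harm_le N hN0) (by norm_num)
    have h2 : ‖∑ n ∈ Ioc N M, E n‖ ≤ 1 := by
      refine (norm_sum_le _ _).trans ?_
      refine (Finset.sum_le_sum fun n hn => hE2 n (by
        have := (Finset.mem_Ioc.1 hn).1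
        omega)).trans ?_
      rw [← Finset.mul_sum]
      have h3 := sq_tail N M hN0 hM
      have h4 : (0 : ℝ) ≤ 1 / M := by positivity
      have h5 : ‖s‖ * (∑ n ∈ Ioc N M, (1 : ℝ) / (n : ℝ) ^ 2) ≤ N * (1 / N) :=
        mul_le_mul (hsn.trans hN1) (by linarith) (Finset.sum_nonneg fun n _ => by positivity)
          (by linarith)
      rwa [mul_one_div_cancel (by linarith)] at h5
    linarith
  -- the series
  have hsum : LSeriesSummable (1 : ℕ → ℂ) s := LSeriesSummable_one_iff.2 hs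
  have hDS : DS (fun _ => 1) 0 s = LSeries (1 : ℕ → ℂ) s := by
    unfold DS
    refine LSeries_congr (fun {n} _ => ?_) s
    simp
  have hlim1 : Tendsto (fun M : ℕ => ∑ n ∈ range (M + 1), LSeries.term (1 : ℕ → ℂ) s n) atTop
      (𝓝 (LSeries (1 : ℕ → ℂ) s)) :=
    (hsum.hasSum.tendsto_sum_nat).comp (tendsto_add_atTop_nat 1)
  have htel : ∀ M : ℕ, ∑ n ∈ range (M + 1), LSeries.term (1 : ℕ → ℂ) s n =
      ∑ n ∈ Icc 1 M, E n + (1 - ((M + 1 : ℕ) : ℂ) ^ (1 - s)) / (s - 1) := by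
    intro M
    induction M with
    | zero => simp [LSeries.term_def]
    | succ M ih =>
      rw [Finset.sum_range_succ, ih, Finset.sum_Icc_succ_top (by omega)]
      have h1 : LSeries.term (1 : ℕ → ℂ) s (M + 1) = ((M + 1 : ℕ) : ℂ) ^ (-s) := by
        rw [LSeries.term_of_ne_zero (by omega), Pi.one_apply, Complex.cpow_neg, one_div]
      rw [h1]
      simp only [E]
      ring
  have hlim2 : Tendsto (fun M : ℕ => (1 - ((M + 1 : ℕ) : ℂ) ^ (1 - s)) / (s - 1)) atTop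
      (𝓝 ((1 - 0) / (s - 1))) := by
    refine Tendsto.div_const (tendsto_const_nhds.sub ?_) _
    rw [tendsto_zero_iff_norm_tendsto_zero]
    have h1 : Tendsto (fun x : ℝ => x ^ (-(s.re - 1))) atTop (𝓝 0) :=
      tendsto_rpow_neg_atTop (by linarith)
    have h2 : Tendsto (fun M : ℕ => ((M + 1 : ℕ) : ℝ)) atTop atTop :=
      tendsto_natCast_atTop_atTop.comp (tendsto_add_atTop_nat 1)
    refine (h1.comp h2).congr fun M => ?_
    simp only [Function.comp_apply]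
    rw [Complex.norm_natCast_cpow_of_pos (by omega)]
    congr 1
    simp
  rw [sub_zero] at hlim2
  have hlim3 : Tendsto (fun M : ℕ => ∑ n ∈ Icc 1 M, E n) atTop
      (𝓝 (LSeries (1 : ℕ → ℂ) s - 1 / (s - 1))) := by
    refine (hlim1.sub hlim2).congr fun M => ?_
    rw [htel M]
    ring
  have hb : ‖LSeries (1 : ℕ → ℂ) s - 1 / (s - 1)‖ ≤ 8 * Real.log (t + 3) := by
    refine le_of_tendsto hlim3.norm ?_
    filter_upwards [eventually_ge_atTop N] with M hM
    exact hpart M hM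
  rw [hDS]
  have h1 : LSeries (1 : ℕ → ℂ) s = 1 / (s - 1) + (LSeries (1 : ℕ → ℂ) s - 1 / (s - 1)) := by ring
  rw [h1]
  refine (norm_add_le _ _).trans ?_
  have h2 : ‖1 / (s - 1)‖ = 1 / ‖s - 1‖ := by rw [norm_div, norm_one]
  rw [h2]
  linarith

end Pool.Agent.H20.BV
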